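import Pool.Agent.R19.Cube.Main

/-!
# MP_18fe88_co: the largest 3-cube-free subsets of `ℤ / 2 ^ n`

A set `A ⊆ ℤ / 2 ^ n` is `d`-cube-free if there is no multiset `S` of `d` elements of `ℤ / 2 ^ n`
such that the sums of all nonempty submultisets of `S` belong to `A`. We prove that for every
`n ≥ 3` the largest 3-cube-free subset of `ℤ / 2 ^ n` has exactly `(5 / 8) * 2 ^ n` elements.
-/

set_option autoImplicit false

open Finset

namespace Pool.Agent.Results.MP_18fe88_co.ThreeCubeFree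

/-- The projective cube `Σ* S` generated by the multiset `S`: the set of the sums of the nonempty
submultisets of `S`. -/
def cube {G : Type} [AddCommMonoid G] (S : Multiset G) : Set G :=
  {x | ∃ T : Multiset G, T ≤ S ∧ T ≠ 0 ∧ T.sum = x}

/-- `A` contains no projective `d`-cube. -/
def IsCubeFree {G : Type} [AddCommMonoid G] (d : ℕ) (A : Set G) : Prop :=
  ∀ S : Multiset G, Multiset.card S = d → ¬ cube S ⊆ A

open Pool.Agent.R19.Cube3

lemma cube_three {G : Type} [AddCommMonoid G] (a b c : G) (A : Set G) :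
    cube {a, b, c} ⊆ A ↔ a ∈ A ∧ b ∈ A ∧ c ∈ A ∧ a + b ∈ A ∧ a + c ∈ A ∧ b + c ∈ A ∧
      a + b + c ∈ A := by
  constructor
  · intro h
    refine ⟨h ⟨{a}, ?_, by simp, by simp⟩, h ⟨{b}, ?_, by simp, by simp⟩,
      h ⟨{c}, ?_, by simp, by simp⟩, h ⟨{a, b}, ?_, by simp, by simp⟩,
      h ⟨{a, c}, ?_, by simp, by simp⟩, h ⟨{b, c}, ?_, by simp, by simp⟩,
      h ⟨{a, b, c}, le_refl _, by simp, by simp [add_assoc]⟩⟩
    all_goals
      rw [← Multiset.mem_powerset]
      simp [Multiset.insert_eq_cons, Multiset.powerset_cons]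
  · rintro ⟨h1, h2, h3, h4, h5, h6, h7⟩ x ⟨T, hT, h0, rfl⟩
    rw [← Multiset.mem_powerset] at hT
    have hT' : T ∈ Multiset.powerset (a ::ₘ b ::ₘ c ::ₘ 0) := hT
    simp only [Multiset.powerset_cons, Multiset.powerset_zero, Multiset.mem_add,
      Multiset.mem_singleton, Multiset.map_add, Multiset.map_singleton] at hT'
    rcases hT' with ((rfl | rfl) | (rfl | rfl)) | ((rfl | rfl) | (rfl | rfl))
    · exact absurd rfl h0
    all_goals simp [← add_assoc]; assumption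

/-- The residues modulo 8 of the extremal example. -/
def good : Finset (ZMod 8) := {1, 3, 4, 5, 7}

lemma good_cubeFree : ∀ a b c : ZMod 8, ¬ (a ∈ good ∧ b ∈ good ∧ c ∈ good ∧ a + b ∈ good ∧
    a + c ∈ good ∧ b + c ∈ good ∧ a + b + c ∈ good) := by
  decide

lemma card_eq_cnt (n : ℕ) (A : Finset (ZMod (2 ^ n))) :
    A.card = cnt (2 ^ n) (fun j => decide ((j : ZMod (2 ^ n)) ∈ A)) := by
  unfold cnt
  have h1 : ∑ j ∈ range (2 ^ n), (decide ((j : ZMod (2 ^ n)) ∈ A)).toNat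
      = ((range (2 ^ n)).filter (fun j : ℕ => (j : ZMod (2 ^ n)) ∈ A)).card := by
    rw [card_filter]
    apply sum_congr rfl
    intro j _
    by_cases h : (j : ZMod (2 ^ n)) ∈ A <;> simp [h]
  rw [h1]
  refine card_nbij' (fun z => z.val) (fun j => (j : ZMod (2 ^ n))) ?_ ?_ ?_ ?_
  · intro z hz
    simp only [coe_filter, mem_range, Set.mem_ofPred_eq]
    exact ⟨ZMod.val_lt z, by simpa using hz⟩
  · intro j hj
    simp only [coe_filter, mem_range, Set.mem_ofPred_eq] at hj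
    exact hj.2
  · intro z _
    simp
  · intro j hj
    simp only [coe_filter, mem_range, Set.mem_ofPred_eq] at hj
    exact ZMod.val_cast_of_lt hj.1

lemma upper (n : ℕ) (A : Finset (ZMod (2 ^ n))) (hA : IsCubeFree 3 (A : Set (ZMod (2 ^ n)))) :
    8 * A.card ≤ 5 * 2 ^ n := by
  rw [card_eq_cnt]
  apply bound
  · intro j
    have : ((j + 2 ^ n : ℕ) : ZMod (2 ^ n)) = (j : ZMod (2 ^ n)) := by
      have h := ZMod.natCast_self (2 ^ n)
      rw [Nat.cast_add, h, add_zero]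
    rw [this]
  · rintro a b c ⟨h1, h2, h3, h4, h5, h6, h7⟩
    simp only [decide_eq_true_eq, Nat.cast_add] at h1 h2 h3 h4 h5 h6 h7
    refine hA {(a : ZMod (2 ^ n)), (b : ZMod (2 ^ n)), (c : ZMod (2 ^ n))} (by simp) ?_
    rw [cube_three]
    exact ⟨h1, h2, h3, h4, h5, h6, h7⟩

lemma cnt_good (M : ℕ) : cnt (8 * M) (fun j => decide ((j : ZMod 8) ∈ good)) = 5 * M := by
  unfold cnt
  induction M with
  | zero => simp
  | succ M ih =>
    rw [show 8 * (M + 1) = 8 * M + 8 by ring, sum_range_add, ih]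
    have : ∑ x ∈ range 8, (decide (((8 * M + x : ℕ) : ZMod 8) ∈ good)).toNat
        = ∑ x ∈ range 8, (decide (((x : ℕ) : ZMod 8) ∈ good)).toNat := by
      apply sum_congr rfl
      intro x _
      have h8 : ((8 * M + x : ℕ) : ZMod 8) = (x : ZMod 8) := by
        push_cast
        have : (8 : ZMod 8) = 0 := by decide
        rw [this]; ring
      rw [h8]
    rw [this]
    have h5 : ∑ x ∈ range 8, (decide (((x : ℕ) : ZMod 8) ∈ good)).toNat = 5 := by decide
    rw [h5]; ring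

lemma lower (n : ℕ) (hn : 3 ≤ n) : ∃ A : Finset (ZMod (2 ^ n)),
    IsCubeFree 3 (A : Set (ZMod (2 ^ n))) ∧ A.card = 5 * 2 ^ (n - 3) := by
  obtain ⟨k, rfl⟩ : ∃ k, n = k + 3 := ⟨n - 3, by omega⟩
  have hd : 8 ∣ 2 ^ (k + 3) := ⟨2 ^ k, by ring⟩
  set φ := ZMod.castHom hd (ZMod 8) with hφ
  refine ⟨univ.filter (fun z => φ z ∈ good), ?_, ?_⟩
  · intro S hS
    obtain ⟨a, b, c, rfl⟩ := Multiset.card_eq_three.mp hS
    rw [cube_three]
    simp only [coe_filter, mem_univ, true_and, Set.mem_ofPred_eq, map_add]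
    exact good_cubeFree _ _ _
  · rw [card_eq_cnt]
    simp only [mem_filter, mem_univ, true_and, map_natCast]
    rw [show 2 ^ (k + 3) = 8 * 2 ^ k by ring, Nat.add_sub_cancel]
    exact cnt_good (2 ^ k)

/-- **Theorem.** For every `n ≥ 3` the largest 3-cube-free subset of `ℤ / 2 ^ n` has exactly
`5 * 2 ^ (n - 3) = (5 / 8) * 2 ^ n` elements. -/
theorem result : ∀ n : ℕ, 3 ≤ n →
    IsGreatest {m : ℕ | ∃ A : Finset (ZMod (2 ^ n)),
      IsCubeFree 3 (A : Set (ZMod (2 ^ n))) ∧ A.card = m} (5 * 2 ^ (n - 3)) := by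
  intro n hn
  refine ⟨lower n hn, ?_⟩
  rintro m ⟨A, hA, rfl⟩
  have h := upper n A hA
  obtain ⟨k, rfl⟩ : ∃ k, n = k + 3 := ⟨n - 3, by omega⟩
  have e : 2 ^ (k + 3) = 8 * 2 ^ k := by ring
  rw [Nat.add_sub_cancel]
  omega

end Pool.Agent.Results.MP_18fe88_co.ThreeCubeFree
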